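import Mathlib

/-!
# Condition (N) does not imply semiperfectness of `ℤ_(2) G`

For the dicyclic group of order twelve and `p = 2` every simple module over the field with two
elements is the reduction of a simple rational module, so that condition (N) holds, while the
`2`-local group ring is not semiperfect: a rank one idempotent of the two by two matrix block of
the group ring modulo `2` would have to lift to an idempotent, whose image in the rational
quaternion algebra generated by the group would be neither `0` nor `1`.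
-/

set_option autoImplicit false

namespace Pool.Agent.Results.MP_70eb0a_al.DicyclicTwelve

/-- The ring `ℤ_(p)` of rational numbers whose denominator is prime to `p`. -/
def Zloc (p : ℕ) [hp : Fact p.Prime] : Subring ℚ where
  carrier := {q | ¬ p ∣ q.den}
  mul_mem' {a b} ha hb h := ((hp.out.dvd_mul).1 (h.trans (Rat.mul_den_dvd a b))).elim ha hb
  one_mem' := by simpa using hp.out.one_lt.ne'
  add_mem' {a b} ha hb h := ((hp.out.dvd_mul).1 (h.trans (Rat.add_den_dvd a b))).elim ha hb
  zero_mem' := by simpa using hp.out.one_lt.ne'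
  neg_mem' {a} ha := by simpa using ha

/-- A ring is semiperfect if it is semisimple modulo its Jacobson radical and idempotents lift
modulo the Jacobson radical. -/
def IsSemiperfect (R : Type) [Ring R] : Prop :=
  IsSemisimpleRing (R ⧸ Ring.jacobson R) ∧
    ∀ e : R ⧸ Ring.jacobson R, IsIdempotentElem e →
      ∃ f : R, IsIdempotentElem f ∧ Ideal.Quotient.mk (Ring.jacobson R) f = e

/-- Finitely generated (left) modules over `A`. -/
structure FGMod (A : Type) [Ring A] where
  /-- the underlying type -/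
  carrier : Type
  [isAddCommGroup : AddCommGroup carrier]
  [isModule : Module A carrier]
  [isFinite : Module.Finite A carrier]

attribute [instance] FGMod.isAddCommGroup FGMod.isModule FGMod.isFinite

/-- The relations `[M] = [M'] + [M'']`, one for every short exact sequence
`0 → M' → M → M'' → 0` of finitely generated modules. -/
def G0Rel (A : Type) [Ring A] : AddSubgroup (FreeAbelianGroup (FGMod A)) :=
  AddSubgroup.closure
    {x | ∃ (M' M M'' : FGMod A) (f : M'.carrier →ₗ[A] M.carrier)
      (g : M.carrier →ₗ[A] M''.carrier),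
      Function.Injective f ∧ Function.Exact f g ∧ Function.Surjective g ∧
      x = FreeAbelianGroup.of M - FreeAbelianGroup.of M' - FreeAbelianGroup.of M''}

/-- The Grothendieck group of finitely generated modules. -/
abbrev G0 (A : Type) [Ring A] : Type 1 := FreeAbelianGroup (FGMod A) ⧸ G0Rel A

/-- The class of a finitely generated module. -/
def cls {A : Type} [Ring A] (M : FGMod A) : G0 A :=
  QuotientAddGroup.mk (FreeAbelianGroup.of M)

/-- A module is indecomposable if it is nonzero and is not the direct sum of two nonzero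
submodules. -/
def IsIndecomposable (A M : Type) [Ring A] [AddCommGroup M] [Module A M] : Prop :=
  Nontrivial M ∧ ∀ U W : Submodule A M, IsCompl U W → U = ⊥ ∨ W = ⊥

/-- Projective indecomposable modules. -/
def IsPIM {A : Type} [Ring A] (P : FGMod A) : Prop :=
  Module.Projective A P.carrier ∧ IsIndecomposable A P.carrier

/-- The action of a group element on a module over the group algebra. -/
noncomputable def gact (k : Type) [CommRing k] {G V : Type} [Group G] [AddCommGroup V]
    [Module (MonoidAlgebra k G) V] (g : G) (v : V) : V :=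
  MonoidAlgebra.of k G g • v

/-- The `ℤ_(p)`-span of a set of vectors. -/
def locSpan (p : ℕ) [Fact p.Prime] {V : Type} [AddCommGroup V] [Module ℚ V] (s : Set V) :
    AddSubgroup V :=
  AddSubgroup.closure {x | ∃ c ∈ Zloc p, ∃ v ∈ s, x = c • v}

/-- A lattice in `V`: the `ℤ_(p)`-span `L` of a finite set which spans `V` over `ℚ`, such that `L`
is stable under `G`. -/
def IsLattice (p : ℕ) [Fact p.Prime] (G : Type) [Group G] {V : Type} [AddCommGroup V]
    [Module ℚ V] [Module (MonoidAlgebra ℚ G) V] (L : AddSubgroup V) : Prop :=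
  (∃ s : Set V, s.Finite ∧ Submodule.span ℚ s = ⊤ ∧ L = locSpan p s) ∧
    ∀ (g : G), ∀ v ∈ L, gact ℚ g v ∈ L

/-- `M` is isomorphic to `L / p L` for some lattice `L` in `V`: there is a `G`-equivariant
surjection `L → M` with kernel `p L`. -/
def IsReduction (p : ℕ) [Fact p.Prime] (G : Type) [Group G] (V : Type) [AddCommGroup V]
    [Module ℚ V] [Module (MonoidAlgebra ℚ G) V]
    (M : Type) [AddCommGroup M] [Module (MonoidAlgebra (ZMod p) G) M] : Prop :=
  ∃ L : AddSubgroup V, IsLattice p G L ∧
    ∃ φ : L →+ M, Function.Surjective φ ∧ (∀ v : L, φ v = 0 ↔ ∃ w : L, v = p • w) ∧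
      ∀ (g : G) (v w : L), (w : V) = gact ℚ g (v : V) → φ w = gact (ZMod p) g (φ v)

/-- The classes of the reductions of the simple `ℚG`-modules. -/
def reductions (p : ℕ) [Fact p.Prime] (G : Type) [Group G] :
    Set (G0 (MonoidAlgebra (ZMod p) G)) :=
  {c | ∃ (V : Type) (_ : AddCommGroup V) (_ : Module ℚ V) (_ : Module (MonoidAlgebra ℚ G) V)
    (_ : IsScalarTower ℚ (MonoidAlgebra ℚ G) V) (M : FGMod (MonoidAlgebra (ZMod p) G)),
    IsSimpleModule (MonoidAlgebra ℚ G) V ∧ IsReduction p G V M.carrier ∧ c = cls M}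

/-- Condition (N): the class of every projective indecomposable `𝔽_p G`-module is a sum of classes
of reductions of simple `ℚG`-modules. -/
def CondN (p : ℕ) [Fact p.Prime] (G : Type) [Group G] : Prop :=
  ∀ P : FGMod (MonoidAlgebra (ZMod p) G), IsPIM P →
    cls P ∈ AddSubmonoid.closure (reductions p G)

open QuaternionGroup

section Lift

variable {M : Type} [Monoid M]

theorem pow_conj {A B : M} (hAB : A * B * A = B) (n : ℕ) : A ^ n * B * A ^ n = B := by
  induction n with
  | zero => simp
  | succ n ih =>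
    have h1 : A ^ (n + 1) = A ^ n * A := pow_succ A n
    have h2 : A ^ (n + 1) = A * A ^ n := pow_succ' A n
    calc A ^ (n + 1) * B * A ^ (n + 1) = A ^ n * A * B * (A * A ^ n) := by rw [← h1, ← h2]
      _ = A ^ n * (A * B * A) * A ^ n := by simp only [mul_assoc]
      _ = B := by rw [hAB, ih]

/-- A homomorphism on the dicyclic group of order twelve from a pair of elements satisfying the
defining relations. -/
def liftHom (A B : M) (hA : A ^ 6 = 1) (hB : B * B = A ^ 3) (hAB : A * B * A = B) :
    QuaternionGroup 3 →* M where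
  toFun g := match g with
    | a i => A ^ (ZMod.val (n := 6) i)
    | xa i => B * A ^ (ZMod.val (n := 6) i)
  map_one' := by
    rw [QuaternionGroup.one_def]
    simp
  map_mul' := by
    have hadd : ∀ i j : ZMod 6, A ^ (i + j).val = A ^ i.val * A ^ j.val := by
      intro i j
      rw [ZMod.val_add, ← pow_add, ← pow_eq_pow_mod _ hA]
    have hsub : ∀ i j : ZMod 6, A ^ j.val = A ^ i.val * A ^ (j - i).val := by
      intro i j
      rw [← hadd]
      congr 2
      abel
    rintro (i | i) (j | j)
    · exact hadd i j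
    · show B * A ^ (ZMod.val (n := 6) (j - i)) = A ^ (ZMod.val (n := 6) i) * (B * A ^ (ZMod.val (n := 6) j))
      rw [hsub i j, ← mul_assoc B, ← mul_assoc, ← mul_assoc, pow_conj hAB]
    · show B * A ^ (ZMod.val (n := 6) (i + j)) = B * A ^ (ZMod.val (n := 6) i) * A ^ (ZMod.val (n := 6) j)
      rw [hadd i j, mul_assoc]
    · show A ^ (ZMod.val (n := 6) (3 + j - i)) = B * A ^ (ZMod.val (n := 6) i) * (B * A ^ (ZMod.val (n := 6) j))
      have h3 : (3 + j - i : ZMod 6) = 3 + (j - i) := by ring
      rw [h3, hadd, hsub i j]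
      have h4 : ZMod.val (3 : ZMod 6) = 3 := rfl
      rw [h4, ← hB]
      have h5 := pow_conj hAB (ZMod.val (n := 6) i)
      calc B * B * A ^ (ZMod.val (n := 6) (j - i)) =
            B * (A ^ (ZMod.val (n := 6) i) * B * A ^ (ZMod.val (n := 6) i)) *
              A ^ (ZMod.val (n := 6) (j - i)) := by rw [h5]
        _ = _ := by simp only [mul_assoc]

end Lift

section Local

variable (p : ℕ) [hp : Fact p.Prime]

theorem den_ne_zero (q : Zloc p) : (((q : ℚ).den : ℕ) : ZMod p) ≠ 0 := by
  rw [Ne, ZMod.natCast_eq_zero_iff]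
  exact q.2

/-- Reduction modulo `p`. -/
def red : Zloc p →+* ZMod p where
  toFun q := ((q : ℚ) : ZMod p)
  map_one' := by simp
  map_zero' := by simp
  map_mul' x y := by
    rw [Subring.coe_mul, Rat.cast_mul_of_ne_zero (den_ne_zero p x) (den_ne_zero p y)]
  map_add' x y := by
    rw [Subring.coe_add, Rat.cast_add_of_ne_zero (den_ne_zero p x) (den_ne_zero p y)]

theorem red_eq_zero_iff (q : Zloc p) : red p q = 0 ↔ (p : ℤ) ∣ (q : ℚ).num := by
  have h : red p q = (((q : ℚ).num : ℤ) : ZMod p) / (((q : ℚ).den : ℕ) : ZMod p) :=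
    Rat.cast_def _
  rw [h, div_eq_zero_iff, or_iff_left (den_ne_zero p q), ZMod.intCast_zmod_eq_zero_iff_dvd]

theorem red_eq_zero_iff' (q : Zloc p) : red p q = 0 ↔ ∃ w : Zloc p, q = p • w := by
  constructor
  · intro h
    obtain ⟨n, hn⟩ := (red_eq_zero_iff p q).1 h
    have hp0 : (p : ℚ) ≠ 0 := by exact_mod_cast hp.out.ne_zero
    have hq : (q : ℚ) = p * ((n : ℚ) / ((q : ℚ).den : ℚ)) := by
      conv_lhs => rw [← Rat.num_div_den (q : ℚ), hn]
      push_cast
      ring
    refine ⟨⟨(n : ℚ) / ((q : ℚ).den : ℚ), ?_⟩, ?_⟩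
    · show ¬ p ∣ ((n : ℚ) / ((q : ℚ).den : ℚ)).den
      intro h1
      apply q.2
      have h2 : ((((n : ℚ) / ((q : ℚ).den : ℚ)).den : ℕ) : ℤ) ∣ ((q : ℚ).den : ℤ) := by
        have := Rat.den_dvd n ((q : ℚ).den : ℤ)
        rw [Rat.divInt_eq_div] at this
        exact_mod_cast this
      exact h1.trans (by exact_mod_cast h2)
    · apply Subtype.ext
      rw [AddSubmonoidClass.coe_nsmul, nsmul_eq_mul]
      exact hq
  · rintro ⟨w, rfl⟩
    rw [map_nsmul, nsmul_eq_mul, ZMod.natCast_self, zero_mul]

theorem isUnit_of_red_ne_zero (q : Zloc p) (h : red p q ≠ 0) : IsUnit q := by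
  have h0 : (q : ℚ) ≠ 0 := by
    intro h1
    apply h
    have : q = 0 := Subtype.ext h1
    rw [this, map_zero]
  have h1 : (q : ℚ)⁻¹ ∈ Zloc p := by
    show ¬ p ∣ ((q : ℚ)⁻¹).den
    rw [Rat.den_inv_of_ne_zero h0]
    intro h2
    exact h ((red_eq_zero_iff p q).2 (Int.natCast_dvd.2 h2))
  exact IsUnit.of_mul_eq_one ⟨(q : ℚ)⁻¹, h1⟩ (Subtype.ext (mul_inv_cancel₀ h0))

end Local

section Ring

theorem two_mem_jacobson : (2 : Zloc 2) ∈ (⊥ : Ideal (Zloc 2)).jacobson := by
  rw [Ideal.mem_jacobson_bot]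
  intro y
  apply isUnit_of_red_ne_zero
  have h2 : (2 : ZMod 2) = 0 := by decide
  rw [map_add, map_mul, map_one, map_ofNat, h2, zero_mul, zero_add]
  decide

theorem exists_left_inv {Λ : Type} [Ring Λ] [Algebra (Zloc 2) Λ] [Module.Finite (Zloc 2) Λ]
    (c : Λ) : ∃ v : Λ, v * (1 + (2 : Zloc 2) • c) = 1 := by
  have h : (⊤ : Submodule (Zloc 2) Λ) ≤
      LinearMap.range (LinearMap.mulRight (Zloc 2) (1 + (2 : Zloc 2) • c)) := by
    refine Submodule.le_of_le_smul_of_le_jacobson_bot (I := Ideal.span {(2 : Zloc 2)})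
      Module.Finite.fg_top ?_ ?_
    · rw [Ideal.span_singleton_le_iff_mem]
      exact two_mem_jacobson
    · intro x _
      have hx : x = x * (1 + (2 : Zloc 2) • c) + (2 : Zloc 2) • (-(x * c)) := by
        rw [mul_add, mul_one, mul_smul_comm, smul_neg]
        abel
      rw [hx]
      refine Submodule.add_mem_sup ⟨x, rfl⟩ ?_
      exact Submodule.smul_mem_smul (Ideal.mem_span_singleton_self _) trivial
  obtain ⟨v, hv⟩ := h (x := 1) trivial
  exact ⟨v, hv⟩

theorem two_smul_mem {Λ : Type} [Ring Λ] [Algebra (Zloc 2) Λ] [Module.Finite (Zloc 2) Λ]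
    (c : Λ) : c + c ∈ Ring.jacobson Λ := by
  rw [← Ideal.jacobson_bot, Ideal.mem_jacobson_iff]
  intro y
  obtain ⟨v, hv⟩ := exists_left_inv (y * c)
  refine ⟨v, ?_⟩
  rw [two_smul] at hv
  rw [Ideal.mem_bot, sub_eq_zero]
  refine Eq.trans ?_ hv
  noncomm_ring

theorem central_mem {Λ : Type} [Ring Λ] [Algebra (Zloc 2) Λ] [Module.Finite (Zloc 2) Λ]
    (u : Λ) (hu : ∀ y, u * y = y * u) (hu2 : u * u = -(u + u)) : u ∈ Ring.jacobson Λ := by
  rw [← Ideal.jacobson_bot, Ideal.mem_jacobson_iff]
  intro y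
  obtain ⟨v, hv⟩ := exists_left_inv (y * y * u)
  refine ⟨v * (1 - y * u), ?_⟩
  rw [two_smul] at hv
  rw [Ideal.mem_bot, sub_eq_zero]
  refine Eq.trans ?_ hv
  have h1 : y * u * (y * u) = -(y * y * u + y * y * u) := by
    calc y * u * (y * u) = y * (u * y) * u := by simp only [mul_assoc]
      _ = y * y * (u * u) := by rw [hu]; simp only [mul_assoc]
      _ = _ := by rw [hu2]; simp only [mul_neg, mul_add, mul_assoc]
  calc v * (1 - y * u) * y * u + v * (1 - y * u) = v * (1 - y * u * (y * u)) := by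
        noncomm_ring
    _ = _ := by rw [h1, sub_neg_eq_add]

/-- The norm form. -/
def nrm {R : Type} [CommRing R] (q : QuaternionAlgebra R (-1) (-1) (-1)) : R :=
  q.re * q.re - q.re * q.imI + q.imI * q.imI + q.imJ * q.imJ - q.imJ * q.imK + q.imK * q.imK

theorem nrm_mul {R : Type} [CommRing R] (q r : QuaternionAlgebra R (-1) (-1) (-1)) :
    nrm (q * r) = nrm q * nrm r := by
  simp only [nrm, QuaternionAlgebra.re_mul, QuaternionAlgebra.imI_mul, QuaternionAlgebra.imJ_mul,
    QuaternionAlgebra.imK_mul]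
  ring

theorem eq_zero_of_nrm (q : QuaternionAlgebra (Zloc 2) (-1) (-1) (-1)) (h : nrm q = 0) :
    q = 0 := by
  obtain ⟨x, y, z, w⟩ := q
  have h' : (x : ℚ) * x - x * y + y * y + z * z - z * w + w * w = 0 := by
    have := congrArg (Subtype.val) h
    simpa [nrm] using this
  have k1 := sq_nonneg ((x : ℚ) - 2 * y)
  have k2 := sq_nonneg ((y : ℚ) - 2 * x)
  have k3 := sq_nonneg ((z : ℚ) - 2 * w)
  have k4 := sq_nonneg ((w : ℚ) - 2 * z)
  have l1 := sq_nonneg (x : ℚ)
  have l2 := sq_nonneg (y : ℚ)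
  have l3 := sq_nonneg (z : ℚ)
  have l4 := sq_nonneg (w : ℚ)
  have h1 : (x : ℚ) = 0 := by
    have : (x : ℚ) ^ 2 = 0 := by nlinarith
    exact pow_eq_zero_iff (two_ne_zero) |>.1 this
  have h2 : (y : ℚ) = 0 := by
    have : (y : ℚ) ^ 2 = 0 := by nlinarith
    exact pow_eq_zero_iff (two_ne_zero) |>.1 this
  have h3 : (z : ℚ) = 0 := by
    have : (z : ℚ) ^ 2 = 0 := by nlinarith
    exact pow_eq_zero_iff (two_ne_zero) |>.1 this
  have h4 : (w : ℚ) = 0 := by
    have : (w : ℚ) ^ 2 = 0 := by nlinarith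
    exact pow_eq_zero_iff (two_ne_zero) |>.1 this
  have h1' : x = 0 := Subtype.ext h1
  have h2' : y = 0 := Subtype.ext h2
  have h3' : z = 0 := Subtype.ext h3
  have h4' : w = 0 := Subtype.ext h4
  rw [h1', h2', h3', h4']
  rfl

/-- The `2`-local group ring of the dicyclic group of order twelve. -/
abbrev LL : Type := MonoidAlgebra (Zloc 2) (QuaternionGroup 3)

/-- The homomorphism to the quaternion order. -/
noncomputable def psi : LL →ₐ[Zloc 2] QuaternionAlgebra (Zloc 2) (-1) (-1) (-1) :=
  MonoidAlgebra.lift (Zloc 2) _ (QuaternionGroup 3)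
    (liftHom (⟨1, 1, 0, 0⟩ : QuaternionAlgebra (Zloc 2) (-1) (-1) (-1)) ⟨0, 0, 1, 0⟩
      (by simp only [pow_succ, pow_zero, one_mul]; ext <;> simp)
      (by simp only [pow_succ, pow_zero, one_mul]; ext <;> simp)
      (by ext <;> simp))

/-- A group element as an element of the group ring. -/
noncomputable def gg (g : QuaternionGroup 3) : LL := MonoidAlgebra.of (Zloc 2) _ g

theorem gg_mul (g h : QuaternionGroup 3) : gg g * gg h = gg (g * h) := by
  rw [gg, gg, gg, map_mul]

theorem gg_one : gg 1 = 1 := by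
  rw [gg, map_one]

theorem psi_a (i : ZMod 6) :
    psi (gg (a i)) = (⟨1, 1, 0, 0⟩ : QuaternionAlgebra (Zloc 2) (-1) (-1) (-1)) ^ i.val := by
  simp [psi, gg, liftHom]

theorem psi_xa (i : ZMod 6) :
    psi (gg (xa i)) = (⟨0, 0, 1, 0⟩ : QuaternionAlgebra (Zloc 2) (-1) (-1) (-1)) *
      (⟨1, 1, 0, 0⟩ : QuaternionAlgebra (Zloc 2) (-1) (-1) (-1)) ^ i.val := by
  simp [psi, gg, liftHom]

/-- The lift of a rank one idempotent. -/
noncomputable def aa : LL := 1 + gg (a 2) + gg (xa 0) + gg (xa 4)

theorem psi_aa : psi aa = ⟨1, 1, 1, 1⟩ := by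
  rw [aa, map_add, map_add, map_add, map_one, psi_a, psi_xa, psi_xa]
  have h2 : ZMod.val (2 : ZMod 6) = 2 := rfl
  have h4 : ZMod.val (4 : ZMod 6) = 4 := rfl
  have h0 : ZMod.val (0 : ZMod 6) = 0 := rfl
  rw [h2, h4, h0]
  simp only [pow_succ, pow_zero, one_mul, mul_one]
  ext <;> simp

theorem aa_sq : aa * aa - aa =
    ((gg (a 2) + gg (a 4) + gg (xa 0) + gg (xa 2) + gg (xa 4) + gg (a 3)) +
      (gg (a 2) + gg (a 4) + gg (xa 0) + gg (xa 2) + gg (xa 4) + gg (a 3))) +
      (gg (a 2) + gg (a 4)) * (gg (a 3) - 1) := by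
  have h1 : (1 : LL) = gg (a 0) := gg_one.symm
  rw [aa, h1]
  simp only [mul_add, add_mul, mul_sub, gg_mul, a_mul_a, a_mul_xa, xa_mul_a, xa_mul_xa]
  have e1 : (0 + 0 : ZMod (2 * 3)) = 0 := by decide
  have e2 : (2 + 0 : ZMod (2 * 3)) = 2 := by decide
  have e3 : (4 + 0 : ZMod (2 * 3)) = 4 := by decide
  have e4 : (0 + 2 : ZMod (2 * 3)) = 2 := by decide
  have e5 : (2 + 2 : ZMod (2 * 3)) = 4 := by decide
  have e6 : (4 + 2 : ZMod (2 * 3)) = 0 := by decide
  have e7 : (0 - 0 : ZMod (2 * 3)) = 0 := by decide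
  have e8 : (0 - 2 : ZMod (2 * 3)) = 4 := by decide
  have e9 : ((3 : ℕ) + 0 - 0 : ZMod (2 * 3)) = 3 := by decide
  have e10 : ((3 : ℕ) + 0 - 4 : ZMod (2 * 3)) = 5 := by decide
  have e11 : (4 - 0 : ZMod (2 * 3)) = 4 := by decide
  have e12 : (4 - 2 : ZMod (2 * 3)) = 2 := by decide
  have e13 : ((3 : ℕ) + 4 - 0 : ZMod (2 * 3)) = 1 := by decide
  have e14 : ((3 : ℕ) + 4 - 4 : ZMod (2 * 3)) = 3 := by decide
  have e15 : (2 + 3 : ZMod (2 * 3)) = 5 := by decide
  have e16 : (4 + 3 : ZMod (2 * 3)) = 1 := by decide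
  rw [e1, e2, e3, e4, e5, e6, e7, e8, e9, e10, e11, e12, e13, e14, e15, e16]
  abel

theorem aa_sq_mem : aa * aa - aa ∈ Ring.jacobson LL := by
  rw [aa_sq]
  refine Ideal.add_mem _ (two_smul_mem _) (Ideal.mul_mem_left _ _ (central_mem _ ?_ ?_))
  · intro y
    induction y using MonoidAlgebra.induction_on with
    | of g =>
      have h : gg (a 3) * gg g = gg g * gg (a 3) := by
        rw [gg_mul, gg_mul]
        congr 1
        revert g
        decide
      have h' : gg g = MonoidAlgebra.of (Zloc 2) _ g := rfl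
      rw [← h', sub_mul, mul_sub, h, one_mul, mul_one]
    | add x y hx hy => rw [mul_add, add_mul, hx, hy]
    | smul r x hx => rw [mul_smul_comm, smul_mul_assoc, hx]
  · have e : (a 3 * a 3 : QuaternionGroup 3) = 1 := by decide
    rw [sub_mul, mul_sub, gg_mul, e, gg_one]
    simp only [mul_one, one_mul]
    abel

theorem two_mul_ne_one (r : Zloc 2) : 2 * r ≠ 1 := by
  intro h
  have h1 := congrArg (red 2) h
  have h2 : (2 : ZMod 2) = 0 := by decide
  rw [map_mul, map_one, map_ofNat, h2, zero_mul] at h1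
  exact absurd h1 (by decide)

theorem not_semiperfect : ¬ IsSemiperfect LL := by
  rintro ⟨-, h⟩
  obtain ⟨f, hf, hfa⟩ := h (Ideal.Quotient.mk (Ring.jacobson LL) aa) (by
    rw [IsIdempotentElem, ← map_mul, Ideal.Quotient.eq]
    exact aa_sq_mem)
  rw [Ideal.Quotient.eq] at hfa
  rw [← Ideal.jacobson_bot, Ideal.mem_jacobson_iff] at hfa
  have h1 : nrm (psi f) * nrm (1 - psi f) = 0 := by
    rw [← nrm_mul, mul_sub, mul_one, ← map_mul, hf.eq, sub_self]
    simp [nrm]
  rcases mul_eq_zero.1 h1 with h2 | h2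
  · have h3 := eq_zero_of_nrm _ h2
    obtain ⟨v, hv⟩ := hfa aa
    rw [Ideal.mem_bot, sub_eq_zero] at hv
    have h4 := congrArg psi hv
    rw [map_add, map_mul, map_mul, map_sub, h3, map_one, psi_aa] at h4
    have h5 : psi v * (1 - (⟨1, 1, 1, 1⟩ : QuaternionAlgebra (Zloc 2) (-1) (-1) (-1)) *
        ⟨1, 1, 1, 1⟩) = 1 := by
      refine Eq.trans ?_ h4
      noncomm_ring
    have h6 : nrm (1 - (⟨1, 1, 1, 1⟩ : QuaternionAlgebra (Zloc 2) (-1) (-1) (-1)) *
        ⟨1, 1, 1, 1⟩) = 2 * 4 := by
      simp [nrm]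
      norm_num
    have h7 := congrArg nrm h5
    rw [nrm_mul, h6] at h7
    have h8 : nrm (1 : QuaternionAlgebra (Zloc 2) (-1) (-1) (-1)) = 1 := by simp [nrm]
    rw [h8] at h7
    exact two_mul_ne_one (nrm (psi v) * 4) (Eq.trans (by ring) h7)
  · have h3 := eq_zero_of_nrm _ h2
    obtain ⟨v, hv⟩ := hfa (-1)
    rw [Ideal.mem_bot, sub_eq_zero] at hv
    have h4 := congrArg psi hv
    rw [map_add, map_mul, map_mul, map_sub, ← sub_eq_zero.1 h3, map_neg, map_one, psi_aa] at h4
    have h5 : psi v * (⟨1, 1, 1, 1⟩ : QuaternionAlgebra (Zloc 2) (-1) (-1) (-1)) = 1 := by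
      refine Eq.trans ?_ h4
      noncomm_ring
    have h6 : nrm (⟨1, 1, 1, 1⟩ : QuaternionAlgebra (Zloc 2) (-1) (-1) (-1)) = 2 := by
      simp [nrm]
      norm_num
    have h7 := congrArg nrm h5
    rw [nrm_mul, h6] at h7
    have h8 : nrm (1 : QuaternionAlgebra (Zloc 2) (-1) (-1) (-1)) = 1 := by simp [nrm]
    rw [h8] at h7
    exact two_mul_ne_one (nrm (psi v)) (Eq.trans (by ring) h7)

end Ring

section Lattice

variable {G : Type} [Group G] {ι : Type} [Fintype ι] [DecidableEq ι]

/-- The rational module given by an integral matrix representation. -/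
def RatMod (_ρ : G →* Matrix ι ι ℤ) : Type := ι → ℚ

variable (ρ : G →* Matrix ι ι ℤ)

/-- A vector as an element of the rational module. -/
def toRat (v : ι → ℚ) : RatMod ρ := v

instance : AddCommGroup (RatMod ρ) := inferInstanceAs (AddCommGroup (ι → ℚ))

instance : Module ℚ (RatMod ρ) := inferInstanceAs (Module ℚ (ι → ℚ))

/-- The action of the rational group algebra. -/
noncomputable def ratAct : MonoidAlgebra ℚ G →ₐ[ℚ] Module.End ℚ (ι → ℚ) :=
  MonoidAlgebra.lift ℚ _ G
    ((Matrix.toLinAlgEquiv' (R := ℚ) (n := ι)).toAlgHom.toMonoidHom.comp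
      (((Int.castRingHom ℚ).mapMatrix (m := ι)).toMonoidHom.comp ρ))

noncomputable instance : Module (MonoidAlgebra ℚ G) (RatMod ρ) :=
  Module.compHom (ι → ℚ) (ratAct ρ).toRingHom

theorem ratMod_smul (c : MonoidAlgebra ℚ G) (v : RatMod ρ) : c • v = ratAct ρ c v := rfl

theorem ratMod_of (g : G) (v : RatMod ρ) :
    MonoidAlgebra.of ℚ G g • v = ((ρ g).map (Int.castRingHom ℚ)).mulVec v := by
  rw [ratMod_smul]
  simp [ratAct]

instance : IsScalarTower ℚ (MonoidAlgebra ℚ G) (RatMod ρ) :=
  ⟨fun c t v => by rw [ratMod_smul, ratMod_smul, map_smul]; rfl⟩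

variable (p : ℕ) [Fact p.Prime]

/-- The standard lattice. -/
def stdLattice : AddSubgroup (RatMod ρ) where
  carrier := {v | ∀ i, v i ∈ Zloc p}
  add_mem' hv hw i := (Zloc p).add_mem (hv i) (hw i)
  zero_mem' _ := (Zloc p).zero_mem
  neg_mem' hv i := (Zloc p).neg_mem (hv i)

theorem eq_sum_single (v : ι → ℚ) : v = ∑ i, v i • (Pi.single i (1 : ℚ) : ι → ℚ) := by
  funext j
  simp [Finset.sum_apply, Pi.single_apply]

theorem stdLattice_stable (g : G) (v : RatMod ρ) (hv : v ∈ stdLattice ρ p) :
    gact ℚ g v ∈ stdLattice ρ p := by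
  rw [gact, ratMod_of]
  intro i
  refine (Zloc p).sum_mem fun j _ => (Zloc p).mul_mem ?_ (hv j)
  simp only [Matrix.map_apply, eq_intCast]
  exact intCast_mem (Zloc p) _

theorem stdLattice_isLattice : IsLattice p G (stdLattice ρ p) := by
  refine ⟨⟨Set.range fun i => toRat ρ (Pi.single i (1 : ℚ)), Set.finite_range _, ?_, ?_⟩,
    stdLattice_stable ρ p⟩
  · rw [eq_top_iff]
    intro v _
    have hv : v = ∑ i, v i • toRat ρ (Pi.single i (1 : ℚ)) := eq_sum_single v
    rw [hv]
    exact Submodule.sum_mem _ fun i _ =>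
      Submodule.smul_mem _ _ (Submodule.subset_span ⟨i, rfl⟩)
  · apply le_antisymm
    · intro v hv'
      have hv : v = ∑ i, v i • toRat ρ (Pi.single i (1 : ℚ)) := eq_sum_single v
      rw [hv]
      exact AddSubgroup.sum_mem _ fun i _ =>
        AddSubgroup.subset_closure ⟨v i, hv' i, _, ⟨i, rfl⟩, rfl⟩
    · rw [locSpan, AddSubgroup.closure_le]
      rintro _ ⟨c, hc, _, ⟨i, rfl⟩, rfl⟩ j
      refine (Zloc p).mul_mem hc ?_
      show (Pi.single i (1 : ℚ) : ι → ℚ) j ∈ Zloc p
      rcases eq_or_ne j i with rfl | h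
      · rw [Pi.single_eq_same]
        exact (Zloc p).one_mem
      · rw [Pi.single_eq_of_ne h]
        exact (Zloc p).zero_mem

theorem isReduction_of_matrix (S : Type) [AddCommGroup S] [Module (MonoidAlgebra (ZMod p) G) S]
    (e : (ι → ZMod p) →+ S) (he : Function.Bijective e)
    (heq : ∀ g x, e (((ρ g).map (Int.castRingHom (ZMod p))).mulVec x) =
      MonoidAlgebra.of (ZMod p) G g • e x) :
    IsReduction p G (RatMod ρ) S := by
  let r : stdLattice ρ p →+ (ι → ZMod p) :=
    { toFun := fun v i => red p ⟨v.1 i, v.2 i⟩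
      map_zero' := by
        funext i
        exact map_zero (red p)
      map_add' := fun v w => by
        funext i
        exact map_add (red p) ⟨v.1 i, v.2 i⟩ ⟨w.1 i, w.2 i⟩ }
  refine ⟨stdLattice ρ p, stdLattice_isLattice ρ p, e.comp r, ?_, ?_, ?_⟩
  · refine he.2.comp ?_
    intro x
    refine ⟨⟨fun i => ((x i).val : ℚ), fun i => natCast_mem (Zloc p) _⟩, ?_⟩
    funext i
    show red p ⟨((x i).val : ℚ), _⟩ = x i
    have h : (⟨((x i).val : ℚ), natCast_mem (Zloc p) _⟩ : Zloc p) = ((x i).val : Zloc p) :=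
      Subtype.ext (map_natCast (Zloc p).subtype (x i).val).symm
    rw [h, map_natCast, ZMod.natCast_zmod_val]
  · intro v
    rw [AddMonoidHom.comp_apply, map_eq_zero_iff e he.1]
    constructor
    · intro h
      have h1 : ∀ i, ∃ w : Zloc p, (⟨v.1 i, v.2 i⟩ : Zloc p) = p • w := fun i =>
        (red_eq_zero_iff' p _).1 (congrFun h i)
      choose w hw using h1
      refine ⟨⟨fun i => (w i : ℚ), fun i => (w i).2⟩, ?_⟩
      apply Subtype.ext
      funext i
      have := congrArg Subtype.val (hw i)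
      rw [AddSubmonoidClass.coe_nsmul] at this
      exact this
    · rintro ⟨w, rfl⟩
      rw [map_nsmul]
      funext i
      show p • (r w i) = 0
      rw [nsmul_eq_mul, ZMod.natCast_self, zero_mul]
  · intro g v w hw
    rw [AddMonoidHom.comp_apply, AddMonoidHom.comp_apply, gact, ← heq]
    congr 1
    funext i
    show red p ⟨w.1 i, w.2 i⟩ = ∑ j, _ * red p ⟨v.1 j, v.2 j⟩
    have h : (⟨w.1 i, w.2 i⟩ : Zloc p) = ∑ j, ((ρ g i j : ℤ) : Zloc p) * ⟨v.1 j, v.2 j⟩ := by
      apply Subtype.ext
      rw [AddSubmonoidClass.coe_finsetSum]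
      show w.1 i = _
      rw [hw, gact, ratMod_of]
      simp [Matrix.mulVec, dotProduct]
    rw [h, map_sum]
    refine Finset.sum_congr rfl fun j _ => ?_
    rw [map_mul, map_intCast]
    rfl

end Lattice

section Simple

/-- The group algebra over the field with two elements. -/
abbrev FF : Type := MonoidAlgebra (ZMod 2) (QuaternionGroup 3)

theorem gen_induction {P : QuaternionGroup 3 → Prop} (h1 : P 1) (ha : P (a 1)) (hx : P (xa 0))
    (hmul : ∀ g h, P g → P h → P (g * h)) (g : QuaternionGroup 3) : P g := by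
  have hpow : ∀ n : ℕ, P ((a 1) ^ n) := by
    intro n
    induction n with
    | zero => rw [pow_zero]; exact h1
    | succ n ih => rw [pow_succ]; exact hmul _ _ ih ha
  have hai : ∀ i : ZMod (2 * 3), P (a i) := by
    intro i
    have := hpow (ZMod.val i)
    rwa [a_one_pow, ZMod.natCast_zmod_val] at this
  rcases g with i | i
  · exact hai i
  · have := hmul _ _ hx (hai i)
    rwa [xa_mul_a, zero_add] at this

variable {S : Type} [AddCommGroup S] [Module FF S]

theorem add_self_zero (v : S) : v + v = 0 := by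
  have h2 : (1 : ZMod 2) + 1 = 0 := by decide
  have h : (1 : FF) + 1 = 0 := by
    rw [← map_one (algebraMap (ZMod 2) FF), ← map_add, h2, map_zero]
  rw [← one_smul FF v, ← add_smul, h, zero_smul]

/-- The action of a group element. -/
noncomputable def act (g : QuaternionGroup 3) (v : S) : S := MonoidAlgebra.of (ZMod 2) _ g • v

theorem act_act (g h : QuaternionGroup 3) (v : S) : act g (act h v) = act (g * h) v := by
  rw [act, act, act, map_mul, mul_smul]

theorem act_one (v : S) : act 1 v = v := by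
  rw [act, map_one, one_smul]

theorem act_add (g : QuaternionGroup 3) (v w : S) : act g (v + w) = act g v + act g w :=
  smul_add _ _ _

theorem act_zero (g : QuaternionGroup 3) : act g (0 : S) = 0 := smul_zero _

theorem mem_of_stable [IsSimpleModule FF S] (W : AddSubgroup S)
    (ha : ∀ v ∈ W, act (a 1) v ∈ W) (hx : ∀ v ∈ W, act (xa 0) v ∈ W) (w : S) (hw : w ∈ W)
    (hw0 : w ≠ 0) (v : S) : v ∈ W := by
  have hg : ∀ g : QuaternionGroup 3, ∀ v ∈ W, act g v ∈ W := by
    refine gen_induction ?_ ha hx ?_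
    · intro v hv
      rwa [act_one]
    · intro g h hg hh v hv
      rw [← act_act]
      exact hg _ (hh _ hv)
  let N : Submodule FF S :=
    { W with
      smul_mem' := by
        intro c x hx
        show c • x ∈ W
        induction c using MonoidAlgebra.induction_on with
        | of g => exact hg g x hx
        | add c d hc hd => rw [add_smul]; exact W.add_mem hc hd
        | smul r c hc =>
          rcases (by decide : ∀ r : ZMod 2, r = 0 ∨ r = 1) r with rfl | rfl
          · rw [zero_smul, zero_smul]; exact W.zero_mem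
          · rwa [one_smul] }
  have hN : N = ⊤ := by
    refine (eq_bot_or_eq_top N).resolve_left ?_
    intro h
    apply hw0
    have : w ∈ N := hw
    rw [h] at this
    exact (Submodule.mem_bot FF).1 this
  have : v ∈ N := by rw [hN]; trivial
  exact this

/-- The vectors fixed by a group element. -/
def fixedBy (S : Type) [AddCommGroup S] [Module FF S] (g : QuaternionGroup 3) : AddSubgroup S where
  carrier := {v | act g v = v}
  add_mem' {v w} hv hw := by
    show act g (v + w) = v + w
    rw [act_add, hv, hw]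
  zero_mem' := act_zero g
  neg_mem' {v} hv := by
    show act g (-v) = -v
    rw [act, smul_neg]
    exact congrArg _ hv

theorem exists_fixed [IsSimpleModule FF S] (g : QuaternionGroup 3)
    (hg : ∀ v : S, act (g * g) v = v) : ∃ w : S, w ≠ 0 ∧ act g w = w := by
  have : Nontrivial S := IsSimpleModule.nontrivial FF S
  obtain ⟨v, hv⟩ := exists_ne (0 : S)
  by_cases h : v + act g v = 0
  · refine ⟨v, hv, ?_⟩
    have h1 := add_self_zero v
    rw [← h] at h1
    exact (add_left_cancel h1).symm
  · refine ⟨v + act g v, h, ?_⟩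
    rw [act_add, act_act, hg, add_comm]

theorem fixed_z [IsSimpleModule FF S] (v : S) : act (a 3) v = v := by
  obtain ⟨w, hw, hw'⟩ := exists_fixed (S := S) (a 3) (by
    intro v
    have e : (a 3 * a 3 : QuaternionGroup 3) = 1 := by decide
    rw [e, act_one])
  refine mem_of_stable (fixedBy S (a 3)) ?_ ?_ w hw' hw v
  · intro v hv
    show act (a 3) (act (a 1) v) = act (a 1) v
    have e : (a 3 * a 1 : QuaternionGroup 3) = a 1 * a 3 := by decide
    rw [act_act, e, ← act_act]
    exact congrArg _ hv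
  · intro v hv
    show act (a 3) (act (xa 0) v) = act (xa 0) v
    have e : (a 3 * xa 0 : QuaternionGroup 3) = xa 0 * a 3 := by decide
    rw [act_act, e, ← act_act]
    exact congrArg _ hv

/-- The additive map `(ι → 𝔽₂) → S` given by a family of vectors. -/
noncomputable def fam {ι : Type} [Fintype ι] (b : ι → S) : (ι → ZMod 2) →+ S where
  toFun x := ∑ i, algebraMap (ZMod 2) FF (x i) • b i
  map_zero' := by simp
  map_add' x y := by
    rw [← Finset.sum_add_distrib]
    refine Finset.sum_congr rfl fun i _ => ?_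
    rw [Pi.add_apply, map_add, add_smul]

theorem act_algebraMap (g : QuaternionGroup 3) (c : ZMod 2) (v : S) :
    act g (algebraMap (ZMod 2) FF c • v) = algebraMap (ZMod 2) FF c • act g v := by
  rw [act, act, ← mul_smul, ← mul_smul, Algebra.commutes]

theorem fam_equiv {ι : Type} [Fintype ι] [DecidableEq ι]
    (ρ : QuaternionGroup 3 →* Matrix ι ι ℤ) (b : ι → S)
    (ha : ∀ x, fam b (((ρ (a 1)).map (Int.castRingHom (ZMod 2))).mulVec x) = act (a 1) (fam b x))
    (hx : ∀ x, fam b (((ρ (xa 0)).map (Int.castRingHom (ZMod 2))).mulVec x) =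
      act (xa 0) (fam b x)) (g : QuaternionGroup 3) (x : ι → ZMod 2) :
    fam b (((ρ g).map (Int.castRingHom (ZMod 2))).mulVec x) =
      MonoidAlgebra.of (ZMod 2) _ g • fam b x := by
  revert x
  refine gen_induction (P := fun g => ∀ x,
    fam b (((ρ g).map (Int.castRingHom (ZMod 2))).mulVec x) = act g (fam b x)) ?_ ha hx ?_ g
  · intro x
    rw [map_one, act_one]
    simp
  · intro g h hg hh x
    rw [map_mul, Matrix.map_mul, ← Matrix.mulVec_mulVec, hg, hh, act_act]

theorem fam_surjective [IsSimpleModule FF S] {ι : Type} [Fintype ι] [DecidableEq ι]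
    (ρ : QuaternionGroup 3 →* Matrix ι ι ℤ) (b : ι → S)
    (h : ∀ g x, fam b (((ρ g).map (Int.castRingHom (ZMod 2))).mulVec x) =
      MonoidAlgebra.of (ZMod 2) _ g • fam b x) (i : ι) (hi : b i ≠ 0) :
    Function.Surjective (fam b) := by
  intro v
  have hb : fam b (Pi.single i 1) = b i := by
    show ∑ j, _ = _
    rw [Finset.sum_eq_single i]
    · rw [Pi.single_eq_same, map_one, one_smul]
    · intro j _ hj
      rw [Pi.single_eq_of_ne hj, map_zero, zero_smul]
    · simp
  have := mem_of_stable (S := S) (AddMonoidHom.range (fam b)) (by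
    rintro _ ⟨x, rfl⟩
    exact ⟨_, h (a 1) x⟩) (by
    rintro _ ⟨x, rfl⟩
    exact ⟨_, h (xa 0) x⟩) (b i) ⟨_, hb⟩ hi v
  exact this

theorem alg_zero (v : S) : algebraMap (ZMod 2) FF 0 • v = 0 := by
  rw [map_zero, zero_smul]

theorem alg_one (v : S) : algebraMap (ZMod 2) FF 1 • v = v := by
  rw [map_one, one_smul]

theorem isSimple_ratMod_one :
    IsSimpleModule (MonoidAlgebra ℚ (QuaternionGroup 3))
      (RatMod (1 : QuaternionGroup 3 →* Matrix (Fin 1) (Fin 1) ℤ)) := by
  refine { exists_pair_ne := ⟨⊥, ⊤, ?_⟩, eq_bot_or_eq_top := fun W => ?_ }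
  · intro h
    have h1 : toRat (1 : QuaternionGroup 3 →* Matrix (Fin 1) (Fin 1) ℤ) (fun _ => (1 : ℚ)) ∈ (⊤ : Submodule (MonoidAlgebra ℚ (QuaternionGroup 3))
          (RatMod (1 : QuaternionGroup 3 →* Matrix (Fin 1) (Fin 1) ℤ))) := trivial
    rw [← h] at h1
    have h2 := (Submodule.mem_bot _).1 h1
    have h3 : (1 : ℚ) = 0 := congrFun h2 0
    exact one_ne_zero h3
  · rw [or_iff_not_imp_left]
    intro hW
    obtain ⟨v, hv, hv0⟩ := (Submodule.ne_bot_iff W).1 hW
    have h0 : v 0 ≠ 0 := by
      intro h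
      apply hv0
      funext i
      rw [Subsingleton.elim i 0]
      exact h
    rw [eq_top_iff]
    intro w _
    have h1 := W.smul_mem (algebraMap ℚ _ (w 0 / v 0)) hv
    rw [algebraMap_smul] at h1
    have h2 : w = (w 0 / v 0) • v := by
      funext i
      rw [Subsingleton.elim i 0]
      show w 0 = w 0 / v 0 * v 0
      field_simp
    rw [h2]
    exact h1

/-- The two-dimensional integral representation. -/
def rhoTwo : QuaternionGroup 3 →* Matrix (Fin 2) (Fin 2) ℤ :=
  liftHom !![0, -1; 1, -1] !![1, -1; 0, -1] (by decide) (by decide) (by decide)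

theorem rhoTwo_a : rhoTwo (a 1) = !![0, -1; 1, -1] := by
  decide

theorem rhoTwo_xa : rhoTwo (xa 0) = !![1, -1; 0, -1] := by
  decide

theorem ratTwo_a (v : RatMod rhoTwo) :
    MonoidAlgebra.of ℚ (QuaternionGroup 3) (a 1) • v = toRat rhoTwo ![-v 1, v 0 - v 1] := by
  rw [ratMod_of, rhoTwo_a]
  funext i
  fin_cases i
  · simp [toRat, Matrix.mulVec, dotProduct, Fin.sum_univ_two]
    try ring
  · simp [toRat, Matrix.mulVec, dotProduct, Fin.sum_univ_two]
    try ring

theorem ratTwo_xa (v : RatMod rhoTwo) :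
    MonoidAlgebra.of ℚ (QuaternionGroup 3) (xa 0) • v = toRat rhoTwo ![v 0 - v 1, -v 1] := by
  rw [ratMod_of, rhoTwo_xa]
  funext i
  fin_cases i
  · simp [toRat, Matrix.mulVec, dotProduct, Fin.sum_univ_two]
    try ring
  · simp [toRat, Matrix.mulVec, dotProduct, Fin.sum_univ_two]
    try ring

theorem isSimple_ratTwo :
    IsSimpleModule (MonoidAlgebra ℚ (QuaternionGroup 3)) (RatMod rhoTwo) := by
  have key : ∀ W : Submodule (MonoidAlgebra ℚ (QuaternionGroup 3)) (RatMod rhoTwo),
      ∀ c : ℚ, c ≠ 0 → toRat rhoTwo ![c, 0] ∈ W → W = ⊤ := by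
    intro W c hc he
    rw [eq_top_iff]
    intro w _
    have h1 := W.smul_mem (MonoidAlgebra.of ℚ (QuaternionGroup 3) (a 1)) he
    have h2 := W.smul_mem (algebraMap ℚ _ (w 0 / c)) he
    have h3 := W.smul_mem (algebraMap ℚ _ (w 1 / c)) h1
    rw [ratTwo_a, algebraMap_smul] at h3
    rw [algebraMap_smul] at h2
    have h4 := W.add_mem h2 h3
    convert h4 using 1
    funext i
    fin_cases i
    · show w 0 = w 0 / c * c + w 1 / c * (-0)
      field_simp
      ring
    · show w 1 = w 0 / c * 0 + w 1 / c * (c - 0)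
      field_simp
      ring
  have key2 : ∀ W : Submodule (MonoidAlgebra ℚ (QuaternionGroup 3)) (RatMod rhoTwo),
      ∀ v ∈ W, 2 * v 0 - v 1 ≠ 0 → W = ⊤ := by
    intro W v hv hne
    apply key W _ hne
    have h1 := W.add_mem hv (W.smul_mem (MonoidAlgebra.of ℚ (QuaternionGroup 3) (xa 0)) hv)
    rw [ratTwo_xa] at h1
    have h2 : toRat rhoTwo ![2 * v 0 - v 1, 0] = v + toRat rhoTwo ![v 0 - v 1, -v 1] := by
      funext i
      fin_cases i
      · show 2 * v 0 - v 1 = v 0 + (v 0 - v 1)
        ring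
      · show 0 = v 1 + -v 1
        ring
    rw [h2]
    exact h1
  refine { exists_pair_ne := ⟨⊥, ⊤, ?_⟩, eq_bot_or_eq_top := fun W => ?_ }
  · intro h
    have h1 : toRat rhoTwo (fun _ => (1 : ℚ)) ∈
        (⊤ : Submodule (MonoidAlgebra ℚ (QuaternionGroup 3)) (RatMod rhoTwo)) := trivial
    rw [← h] at h1
    have h2 := (Submodule.mem_bot _).1 h1
    have h3 : (1 : ℚ) = 0 := congrFun h2 0
    exact one_ne_zero h3
  · rw [or_iff_not_imp_left]
    intro hW
    obtain ⟨v, hv, hv0⟩ := (Submodule.ne_bot_iff W).1 hW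
    by_cases hne : 2 * v 0 - v 1 = 0
    · have h1 := W.smul_mem (MonoidAlgebra.of ℚ (QuaternionGroup 3) (a 1)) hv
      apply key2 W _ h1
      rw [ratTwo_a]
      show 2 * (-v 1) - (v 0 - v 1) ≠ 0
      intro h2
      apply hv0
      funext i
      fin_cases i
      · show v 0 = 0
        linarith
      · show v 1 = 0
        linarith
    · exact key2 W v hv hne

theorem simple_mem_reductions (M : FGMod FF) [IsSimpleModule FF M.carrier] :
    cls M ∈ reductions 2 (QuaternionGroup 3) := by
  by_cases hfix : ∃ v : M.carrier, v ≠ 0 ∧ act (a 1) v = v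
  · obtain ⟨v, hv0, hv⟩ := hfix
    have ha : ∀ v : M.carrier, act (a 1) v = v := by
      refine mem_of_stable (fixedBy M.carrier (a 1)) ?_ ?_ v hv hv0
      · intro v hv
        show act (a 1) (act (a 1) v) = act (a 1) v
        exact congrArg _ hv
      · intro v hv
        show act (a 1) (act (xa 0) v) = act (xa 0) v
        have e : (a 1 * xa 0 : QuaternionGroup 3) = xa 0 * a 5 := by decide
        have e2 : (a 5 * a 1 : QuaternionGroup 3) = 1 := by decide
        have h1 : act (a 5) v = v := by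
          conv_lhs => rw [← (show act (a 1) v = v from hv)]
          rw [act_act, e2, act_one]
        rw [act_act, e, ← act_act, h1]
    obtain ⟨w, hw0, hw⟩ := exists_fixed (S := M.carrier) (xa 0) (by
      intro v
      have e : (xa 0 * xa 0 : QuaternionGroup 3) = a 3 := by decide
      rw [e, fixed_z])
    have hx : ∀ v : M.carrier, act (xa 0) v = v := by
      refine mem_of_stable (fixedBy M.carrier (xa 0)) ?_ ?_ w hw hw0
      · intro v hv
        show act (xa 0) (act (a 1) v) = act (a 1) v
        rw [ha]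
        exact hv
      · intro v hv
        show act (xa 0) (act (xa 0) v) = act (xa 0) v
        exact congrArg _ hv
    have heq := fam_equiv (S := M.carrier) (1 : QuaternionGroup 3 →* Matrix (Fin 1) (Fin 1) ℤ)
      (fun _ => w) (by
        intro x
        rw [ha, MonoidHom.one_apply]
        simp) (by
        intro x
        rw [hx, MonoidHom.one_apply]
        simp)
    refine ⟨RatMod (1 : QuaternionGroup 3 →* Matrix (Fin 1) (Fin 1) ℤ), inferInstance,
      inferInstance, inferInstance, inferInstance, M, isSimple_ratMod_one,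
      isReduction_of_matrix _ 2 M.carrier (fam (fun _ => w)) ⟨?_, ?_⟩ heq, rfl⟩
    · rw [injective_iff_map_eq_zero]
      intro x h
      have h1 : algebraMap (ZMod 2) FF (x 0) • w = 0 := by
        have h2 : fam (fun _ : Fin 1 => w) x = algebraMap (ZMod 2) FF (x 0) • w := by
          simp only [fam, AddMonoidHom.coe_mk, ZeroHom.coe_mk, Fin.sum_univ_one]
        rw [← h2, h]
      have h3 : x 0 = 0 := by
        rcases (by decide : ∀ r : ZMod 2, r = 0 ∨ r = 1) (x 0) with h4 | h4
        · exact h4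
        · rw [h4, alg_one] at h1
          exact absurd h1 hw0
      funext i
      rw [Subsingleton.elim i 0]
      exact h3
    · exact fam_surjective _ _ heq 0 hw0
  · push Not at hfix
    obtain ⟨w, hw0, hw⟩ := exists_fixed (S := M.carrier) (xa 0) (by
      intro v
      have e : (xa 0 * xa 0 : QuaternionGroup 3) = a 3 := by decide
      rw [e, fixed_z])
    have hX : act (a 1) (act (a 1) w) = w + act (a 1) w := by
      have h1 : w + act (a 1) w + act (a 1) (act (a 1) w) = 0 := by
        by_contra h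
        apply hfix _ h
        have e : (a 1 * a 1 * a 1 : QuaternionGroup 3) = a 3 := by decide
        rw [act_add, act_add, act_act (a 1) (a 1) (act (a 1) w), act_act (a 1 * a 1), e, fixed_z]
        abel
      have h2 := add_self_zero (w + act (a 1) w)
      rw [← h2] at h1
      exact add_left_cancel h1
    have hY : act (xa 0) (act (a 1) w) = w + act (a 1) w := by
      have e : (xa 0 * a 1 : QuaternionGroup 3) = a 5 * xa 0 := by decide
      have e2 : (a 5 : QuaternionGroup 3) = a 1 * a 1 * a 3 := by decide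
      rw [act_act, e, ← act_act, hw, e2, ← act_act, fixed_z, ← act_act, hX]
    have hfam : ∀ x : Fin 2 → ZMod 2, fam ![w, act (a 1) w] x =
        algebraMap (ZMod 2) FF (x 0) • w + algebraMap (ZMod 2) FF (x 1) • act (a 1) w := by
      intro x
      simp only [fam, AddMonoidHom.coe_mk, ZeroHom.coe_mk, Fin.sum_univ_two]
      rfl
    have heq := fam_equiv (S := M.carrier) rhoTwo ![w, act (a 1) w] (by
        intro x
        have e0 : (((!![0, -1; 1, -1] : Matrix (Fin 2) (Fin 2) ℤ).map
            (Int.castRingHom (ZMod 2))).mulVec x) 0 = x 1 := by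
          simp [Matrix.mulVec, dotProduct, Fin.sum_univ_two]
        have e1 : (((!![0, -1; 1, -1] : Matrix (Fin 2) (Fin 2) ℤ).map
            (Int.castRingHom (ZMod 2))).mulVec x) 1 = x 0 + x 1 := by
          simp [Matrix.mulVec, dotProduct, Fin.sum_univ_two]
        rw [rhoTwo_a, hfam, hfam, act_add, act_algebraMap, act_algebraMap, hX, e0, e1, map_add,
          add_smul, smul_add]
        abel) (by
        intro x
        have e0 : (((!![1, -1; 0, -1] : Matrix (Fin 2) (Fin 2) ℤ).map
            (Int.castRingHom (ZMod 2))).mulVec x) 0 = x 0 + x 1 := by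
          simp [Matrix.mulVec, dotProduct, Fin.sum_univ_two]
        have e1 : (((!![1, -1; 0, -1] : Matrix (Fin 2) (Fin 2) ℤ).map
            (Int.castRingHom (ZMod 2))).mulVec x) 1 = x 1 := by
          simp [Matrix.mulVec, dotProduct, Fin.sum_univ_two]
        rw [rhoTwo_xa, hfam, hfam, act_add, act_algebraMap, act_algebraMap, hw, hY, e0, e1,
          map_add, add_smul, smul_add]
        abel)
    have hu0 : act (a 1) w ≠ 0 := by
      intro h
      have e : (a 5 * a 1 : QuaternionGroup 3) = 1 := by decide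
      have h1 := congrArg (act (a 5)) h
      rw [act_act, e, act_one, act_zero] at h1
      exact hw0 h1
    refine ⟨RatMod rhoTwo, inferInstance, inferInstance, inferInstance, inferInstance, M,
      isSimple_ratTwo,
      isReduction_of_matrix _ 2 M.carrier (fam ![w, act (a 1) w]) ⟨?_, ?_⟩ heq, rfl⟩
    · rw [injective_iff_map_eq_zero]
      intro x h
      rw [hfam] at h
      have h5 := (by decide : ∀ r : ZMod 2, r = 0 ∨ r = 1)
      rcases h5 (x 0) with h0 | h0 <;> rcases h5 (x 1) with h1 | h1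
      · funext i
        fin_cases i
        · exact h0
        · exact h1
      · rw [h0, h1, alg_zero, alg_one, zero_add] at h
        exact absurd h hu0
      · rw [h0, h1, alg_zero, alg_one, add_zero] at h
        exact absurd h hw0
      · rw [h0, h1, alg_one, alg_one] at h
        have h2 := add_self_zero w
        rw [← h] at h2
        exact absurd (add_left_cancel h2).symm (hfix w hw0)
    · exact fam_surjective _ _ heq 0 hw0

end Simple

section Groth

theorem cls_exact {A : Type} [Ring A] (M' M M'' : FGMod A) (f : M'.carrier →ₗ[A] M.carrier)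
    (g : M.carrier →ₗ[A] M''.carrier) (hf : Function.Injective f) (hfg : Function.Exact f g)
    (hg : Function.Surjective g) : cls M = cls M' + cls M'' := by
  have h : FreeAbelianGroup.of M - FreeAbelianGroup.of M' - FreeAbelianGroup.of M'' ∈ G0Rel A :=
    AddSubgroup.subset_closure ⟨M', M, M'', f, g, hf, hfg, hg, rfl⟩
  rw [sub_sub] at h
  exact ((QuotientAddGroup.eq_iff_sub_mem).2 h)

theorem cls_mem (M : Type) [AddCommGroup M] [Module FF M] (h : IsFiniteLength FF M) :
    ∀ hM : Module.Finite FF M, cls (@FGMod.mk FF _ M _ _ hM) ∈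
      AddSubmonoid.closure (reductions 2 (QuaternionGroup 3)) := by
  induction h with
  | @of_subsingleton M _ _ _ =>
    intro hM
    have h := cls_exact (FGMod.mk (A := FF) M) (FGMod.mk (A := FF) M) (FGMod.mk (A := FF) M)
      LinearMap.id 0 Function.injective_id
      (fun y => ⟨fun _ => ⟨y, rfl⟩, fun _ => rfl⟩)
      (fun y => ⟨y, Subsingleton.elim _ _⟩)
    have h0 : cls (FGMod.mk (A := FF) M) = 0 := by
      have := h.symm
      rwa [add_eq_left] at this
    rw [h0]
    exact AddSubmonoid.zero_mem _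
  | @of_simple_quotient M _ _ N hN h ih =>
    intro hM
    have : IsArtinianRing FF := IsArtinianRing.of_finite (ZMod 2) FF
    have hfin : Module.Finite FF N := inferInstance
    have hex := cls_exact (FGMod.mk (A := FF) N) (FGMod.mk (A := FF) M)
      (FGMod.mk (A := FF) (M ⧸ N)) N.subtype N.mkQ N.injective_subtype
      (LinearMap.exact_subtype_mkQ N) (Submodule.mkQ_surjective N)
    rw [hex]
    refine AddSubmonoid.add_mem _ (ih hfin) (AddSubmonoid.subset_closure ?_)
    have : IsSimpleModule FF (FGMod.mk (A := FF) (M ⧸ N)).carrier := hN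
    exact simple_mem_reductions _

end Groth

theorem condN : CondN 2 (QuaternionGroup 3) := by
  intro P _
  have : IsArtinianRing FF := IsArtinianRing.of_finite (ZMod 2) FF
  exact cls_mem P.carrier
    (isFiniteLength_iff_isNoetherian_isArtinian.2 ⟨inferInstance, inferInstance⟩) P.isFinite

/-- For the dicyclic group of order twelve and `p = 2` condition (N) holds and `ℤ_(2) G` is not
semiperfect. -/
theorem result : CondN 2 (QuaternionGroup 3) ∧
    ¬ IsSemiperfect (MonoidAlgebra (Zloc 2) (QuaternionGroup 3)) :=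
  ⟨condN, not_semiperfect⟩

end Pool.Agent.Results.MP_70eb0a_al.DicyclicTwelve
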